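import Pool.Agent.H95.RQ.Targets3

/-!
# Module FIB: the first inequality in the form of ray class characters
-/

set_option autoImplicit false

open NumberField NumberField.InfinitePlace IsDedekindDomain

namespace Pool.Agent.H59.RQ.FIB

open Pool.Agent.H28.RC Pool.Agent.H95.RQ

theorem UR.mono {F E : Type} [Field F] [NumberField F] [Field E] [NumberField E] [Algebra F E]
    {m m₀ : Ideal (𝓞 F)} (h : UR E m₀) (hm : m ≤ m₀) : UR E m := by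
  intro Q hQ hQ0 hQm g hg
  refine h Q hQ hQ0 ?_ g hg
  rw [eq_top_iff, ← hQm]
  exact sup_le_sup_left hm _

theorem pf_FIB (h_FST : T_FST) (h_PCX : T_PCX) (h_URX : T_URX)
    (h_FR2 : Pool.Agent.H28.RC.T_FR2) (h_FRE : Pool.Agent.H28.RC.T_FRE) :
    Pool.Agent.H28.RC.T_FIQ := by
  classical
  intro F E _ _ _ _ _ _ hcyc
  obtain ⟨σ, hσ⟩ := hcyc.exists_generator
  obtain ⟨m₀, hm₀, hUR₀⟩ := h_URX F E
  obtain ⟨m, hm, hm0, X, hX, hX2⟩ := h_FST F E σ hσ m₀ hm₀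
  have hUR : UR E m := UR.mono hUR₀ hm
  obtain ⟨pc1, pc2⟩ := h_PCX F m hm0
  refine ⟨m, hm0, hUR, ?_⟩
  have hn : Nat.card (E ≃ₐ[F] E) = Module.finrank F E := IsGalois.card_aut_eq_finrank F E
  obtain ⟨X', hX', hc⟩ := Finset.exists_subset_card_eq (s := X) (n := Nat.card (E ≃ₐ[F] E))
    (by rw [hn]; exact hX)
  refine ⟨X'.image xt, ?_, ?_⟩
  · rw [Finset.card_image_of_injective _ pc2, hc]
  · intro ψ hψ
    obtain ⟨χ, hχ, rfl⟩ := Finset.mem_image.1 hψ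
    obtain ⟨hray, hnorm⟩ := hX2 χ (hX' hχ)
    refine ⟨pc1 χ hray, ?_⟩
    intro P hP g hg f hf
    have hgf : g ^ f = 1 := Subgroup.mem_bot.1 hf
    obtain ⟨hPp, hP0⟩ := (h_FRE F E).2.1 P g hg
    obtain ⟨Q, f', h, hQ1, hQ2, hf1, hf2, hQ3, -, -, -⟩ := h_FR2 F E E m hUR P g hg hP f
      (AlgEquiv.refl : E ≃ₐ[E] E) (by rw [hgf]; rfl)
    have hPm : P ∈ IM m := ⟨hP0, hP⟩
    have hQm : Ideal.relNorm (𝓞 F) Q ∈ IM m := by
      rw [hQ3]
      exact (IM m).pow_mem hPm f'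
    have h1 := hnorm Q hQm
    have h2 : (⟨Ideal.relNorm (𝓞 F) Q, hQm⟩ : IM m) = ⟨P, hPm⟩ ^ f' := by
      apply Subtype.ext
      rw [SubmonoidClass.coe_pow]
      exact hQ3
    rw [h2, map_pow] at h1
    have h3 : xt χ P = ((χ ⟨P, hPm⟩ : ℂˣ) : ℂ) := by
      unfold xt
      rw [dif_pos hPm]
    obtain ⟨c, rfl⟩ := hf2
    rw [h3, ← Units.val_pow_eq_pow_val, pow_mul, h1, one_pow, Units.val_one]

end Pool.Agent.H59.RQ.FIB
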