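import Pool.Agent.H95.RQ.Targets1

/-! Primes for which the order of `a` is a given prime power (module ORD). -/

set_option autoImplicit false

open Finset Pool.Agent.H95.RQ

namespace Pool.Agent.H59.RQ

theorem pow_one_add {R : Type} [CommRing R] (x : R) (hx : x * x = 0) (i : ℕ) :
    (1 + x) ^ i = 1 + i * x := by
  induction i with
  | zero => simp
  | succ i ih =>
    rw [pow_succ, ih]
    push_cast
    linear_combination (i : R) * hx

/-- the square of `l` does not divide the sum -/
theorem not_sq_dvd (b l : ℕ) (hl : l.Prime) (hsq : l = 2 → ∃ d, b = d ^ 2) :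
    ¬ l ^ 2 ∣ ∑ i ∈ range l, b ^ i := by
  intro hdvd
  rcases hl.eq_two_or_odd' with h2 | hodd
  · obtain ⟨d, rfl⟩ := hsq h2
    subst h2
    have h3 : ∑ i ∈ range 2, (d ^ 2) ^ i = 1 + d ^ 2 := by
      simp [sum_range_succ]
    rw [h3] at hdvd
    obtain ⟨c, hc⟩ := hdvd
    rcases Nat.even_or_odd' d with ⟨e, rfl | rfl⟩
    · ring_nf at hc
      omega
    · ring_nf at hc
      omega
  · haveI : Fact l.Prime := ⟨hl⟩
    have hl0 : 0 < l := hl.pos
    have hdl : l ∣ ∑ i ∈ range l, b ^ i := (Dvd.intro_left _ (by ring : l * l = l ^ 2)).trans hdvd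
    have h1 : (b : ZMod l) = 1 := by
      have h3 : ((∑ i ∈ range l, b ^ i : ℕ) : ZMod l) = 0 := (ZMod.natCast_eq_zero_iff _ _).2 hdl
      push_cast at h3
      have h4 := geom_sum_mul (b : ZMod l) l
      rw [h3, zero_mul, ZMod.pow_card] at h4
      exact (sub_eq_zero.1 h4.symm)
    obtain ⟨c, hc⟩ : ∃ c : ℤ, (b : ℤ) = 1 + l * c := by
      have h3 : ((b : ℤ) : ZMod l) = ((1 : ℤ) : ZMod l) := by
        push_cast
        exact h1
      rw [ZMod.intCast_eq_intCast_iff_dvd_sub] at h3
      obtain ⟨c, hc⟩ := h3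
      exact ⟨-c, by linarith⟩
    have h5 : ((∑ i ∈ range l, b ^ i : ℕ) : ZMod (l ^ 2)) = 0 :=
      (ZMod.natCast_eq_zero_iff _ _).2 hdvd
    have hll : (l : ZMod (l ^ 2)) * l = 0 := by
      have : ((l ^ 2 : ℕ) : ZMod (l ^ 2)) = 0 := ZMod.natCast_self _
      push_cast at this
      rw [← this]
      ring
    have hB : (b : ZMod (l ^ 2)) = 1 + l * c := by
      have := congrArg (fun z : ℤ => (z : ZMod (l ^ 2))) hc
      push_cast at this
      exact this
    have hx : ((l : ZMod (l ^ 2)) * c) * (l * c) = 0 := by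
      linear_combination (c : ZMod (l ^ 2)) * c * hll
    push_cast at h5
    rw [sum_congr rfl fun i _ => by rw [hB, pow_one_add _ hx i]] at h5
    rw [sum_add_distrib, ← sum_mul, sum_const, card_range, nsmul_one] at h5
    obtain ⟨m, hm⟩ := hodd
    have h6 : ∑ i ∈ range l, i = l * m := by
      have h7 := Finset.sum_range_id_mul_two l
      have h8 : l - 1 = 2 * m := by omega
      rw [h8] at h7
      have h9 : (∑ i ∈ range l, i) * 2 = (l * m) * 2 := by
        rw [h7]
        ring
      exact Nat.eq_of_mul_eq_mul_right (by norm_num) h9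
    have h10 : (∑ i ∈ range l, (i : ZMod (l ^ 2))) = l * m := by
      have := congrArg (fun z : ℕ => (z : ZMod (l ^ 2))) h6
      push_cast at this
      exact this
    rw [h10] at h5
    have h11 : ((l : ℕ) : ZMod (l ^ 2)) = 0 := by
      linear_combination h5 - (m : ZMod (l ^ 2)) * c * hll
    rw [ZMod.natCast_eq_zero_iff] at h11
    have h12 := Nat.le_of_dvd hl0 h11
    have h13 := hl.two_le
    nlinarith

theorem pf_ORD : T_ORD := by
  intro a l s ha hl hs
  obtain ⟨s, rfl⟩ : ∃ m, s = m + 2 := ⟨s - 2, by omega⟩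
  set b := a ^ (l ^ (s + 1)) with hb
  have hbl : l < b := by
    calc l < 2 ^ l := Nat.lt_two_pow_self
      _ ≤ 2 ^ (l ^ (s + 1)) := by
          refine Nat.pow_le_pow_right (by norm_num) ?_
          exact Nat.le_self_pow (by omega) l
      _ ≤ a ^ (l ^ (s + 1)) := Nat.pow_le_pow_left ha _
  set T := ∑ i ∈ range l, b ^ i with hT
  have hTl : l < T := by
    have h1 : ∑ i ∈ range 2, b ^ i ≤ T := by
      refine sum_le_sum_of_subset (range_subset_range.2 hl.two_le)
    simp only [sum_range_succ, range_zero, sum_empty, pow_zero, pow_one] at h1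
    omega
  have hsq : ¬ l ^ 2 ∣ T := by
    refine not_sq_dvd b l hl fun h2 => ⟨a ^ (l ^ s), ?_⟩
    rw [hb, ← pow_mul, pow_succ, h2]
  -- a prime divisor different from `l`
  obtain ⟨q, hq, hqT, hql⟩ : ∃ q : ℕ, q.Prime ∧ q ∣ T ∧ q ≠ l := by
    by_contra hcon
    push Not at hcon
    have h1 := Nat.eq_prime_pow_of_unique_prime_dvd (n := T) (p := l) (by omega)
      (fun {d} hd hdT => hcon d hd hdT)
    set k := T.primeFactorsList.length with hk
    have h2 : k < 2 := by
      by_contra h3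
      push Not at h3
      exact hsq (h1 ▸ pow_dvd_pow l h3)
    have h3 : T ≤ l := by
      rw [h1]
      calc l ^ k ≤ l ^ 1 := Nat.pow_le_pow_right hl.pos (by omega)
        _ = l := pow_one l
    omega
  refine ⟨q, hq, ?_⟩
  have : Fact l.Prime := ⟨hl⟩
  have : Fact q.Prime := ⟨hq⟩
  have hT0 : (∑ i ∈ range l, (b : ZMod q) ^ i) = 0 := by
    have h3 : ((T : ℕ) : ZMod q) = 0 := (ZMod.natCast_eq_zero_iff _ _).2 hqT
    rw [hT] at h3
    push_cast at h3
    exact h3
  have hb1 : (b : ZMod q) = (a : ZMod q) ^ (l ^ (s + 1)) := by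
    rw [hb]
    push_cast
    rfl
  refine orderOf_eq_prime_pow (n := s + 1) ?_ ?_
  · intro h
    rw [← hb1] at h
    rw [h] at hT0
    simp only [one_pow, sum_const, card_range, nsmul_eq_mul, mul_one] at hT0
    rw [ZMod.natCast_eq_zero_iff] at hT0
    exact hql ((Nat.prime_dvd_prime_iff_eq hq hl).1 hT0)
  · have h4 := geom_sum_mul (b : ZMod q) l
    rw [hT0, zero_mul, hb1] at h4
    have h5 := (sub_eq_zero.1 h4.symm)
    rw [← pow_mul, ← pow_succ] at h5
    exact h5

end Pool.Agent.H59.RQ
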